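import Pool.Agent.Helper54.FP.Inst
import Pool.Agent.Helper54.PW.Basic

/-!
# FP-27: the Frobenius module of a Galois cover with an integral invertible matrix
-/

set_option autoImplicit false
open scoped Pointwise
open Pool.Agent.Helper54.PW

namespace Pool.Agent.Helper54.FP

/-- `pk` is injective -/
theorem fmOfY_pk_injective (k L : Type) [Field k] [Field L] [Algebra (RatFunc k) L] :
    Function.Injective (pk k L) :=
  (algebraMap (RatFunc k) L).injective.comp
    (IsFractionRing.injective (Polynomial k) (RatFunc k))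

/-- an automorphism over `k(X)` fixes the polynomials -/
theorem fmOfY_comp_pk {k L : Type} [Field k] [Field L] [Algebra (RatFunc k) L]
    (σ : L ≃ₐ[RatFunc k] L) : (σ : L →+* L).comp (pk k L) = pk k L := by
  refine RingHom.ext fun y => ?_
  simp [pk]

/-- an integral element fixed by the Galois group is a polynomial -/
theorem fmOfY_fixed {k L : Type} [Field k] [Field L] [Algebra (RatFunc k) L]
    [FiniteDimensional (RatFunc k) L] [IsGalois (RatFunc k) L] {x : L} (hx : x ∈ intSub k L)
    (h : ∀ σ : L ≃ₐ[RatFunc k] L, σ x = x) : ∃ q : Polynomial k, pk k L q = x := by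
  have h1 : x ∈ (⊥ : IntermediateField (RatFunc k) L) := (IsGalois.mem_bot_iff_fixed x).2 h
  obtain ⟨r, hr⟩ := IntermediateField.mem_bot.1 h1
  have h2 : IsIntegral (Polynomial k) r := by
    obtain ⟨P, hP, hPx⟩ := mem_intSub.1 hx
    refine ⟨P, hP, ?_⟩
    apply (algebraMap (RatFunc k) L).injective
    rw [map_zero, Polynomial.hom_eval₂, hr]
    exact hPx
  obtain ⟨q, hq⟩ := IsIntegrallyClosed.isIntegral_iff.1 h2
  exact ⟨q, by rw [pk, RingHom.comp_apply, hq, hr]⟩

/-- a matrix with integral entries fixed by the Galois group has polynomial entries -/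
theorem fmOfY_matrix {G k L : Type} [Field k] [Field L] [Algebra (RatFunc k) L]
    [FiniteDimensional (RatFunc k) L] [IsGalois (RatFunc k) L] (M : Matrix G G L)
    (hM : ∀ i j, M i j ∈ intSub k L) (h : ∀ σ : L ≃ₐ[RatFunc k] L, M.map σ = M) :
    ∃ Ψ : Matrix G G (Polynomial k), Ψ.map (pk k L) = M := by
  have : ∀ i j, ∃ q : Polynomial k, pk k L q = M i j := fun i j =>
    fmOfY_fixed (hM i j) (fun σ => congrFun (congrFun (h σ) i) j)
  choose Ψ hΨ using this
  exact ⟨Ψ, by ext i j; exact hΨ i j⟩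

/-- the values of polynomials in integral elements are integral -/
theorem fmOfY_ev_mem {G k L : Type} [Field k] [Field L] [Algebra (RatFunc k) L]
    (Y : Matrix G G L) (h1 : ∀ i j, Y i j ∈ intSub k L)
    (F : MvPolynomial (G × G) (Polynomial k)) : ev (pk k L) Y F ∈ intSub k L := by
  induction F using MvPolynomial.induction_on with
  | C a =>
    rw [ev_C]
    exact mem_intSub.2 ((pk k L).isIntegralElem_map)
  | add p q hp hq => rw [map_add]; exact (intSub k L).add_mem hp hq
  | mul_X p ij hp =>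
    obtain ⟨i, j⟩ := ij
    rw [map_mul, ev_X]
    exact (intSub k L).mul_mem hp (h1 i j)

variable {p : ℕ} [Fact p.Prime] {G : Type} [Group G] [Fintype G] [DecidableEq G]

theorem fm_of_Y {k L : Type} [Field k] [CharP k p] [Field L] [Algebra (RatFunc k) L]
    [FiniteDimensional (RatFunc k) L] [IsGalois (RatFunc k) L] (H : Subgroup G)
    (f : H ≃* (L ≃ₐ[RatFunc k] L)) (Y : Matrix G G L) (hY : IsUnit Y)
    (h1 : ∀ i j, Y i j ∈ intSub k L) (h2 : ∀ i j, Y⁻¹ i j ∈ intSub k L)
    (h3 : ∀ h : H, Y.map (f h) = actM (h : G) Y) : FM p (pk k L) Y H := by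
  have : CharP L p := charP_of_injective_ringHom
    (f := (pk k L).comp (Polynomial.C : k →+* Polynomial k)) (RingHom.injective _) p
  have hinj := fmOfY_pk_injective k L
  have hdet : IsUnit Y.det := (Matrix.isUnit_iff_isUnit_det Y).1 hY
  -- the Frobenius of `Y`
  set Yp : Matrix G G L := Y.map (frobenius L p) with hYp
  set Zp : Matrix G G L := (Y⁻¹).map (frobenius L p) with hZp
  have hYZ : Yp * Zp = 1 := by
    rw [hYp, hZp, ← Matrix.map_mul, Matrix.mul_nonsing_inv Y hdet]
    exact Matrix.map_one _ (map_zero _) (map_one _)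
  have hZY : Zp * Yp = 1 := by
    rw [hYp, hZp, ← Matrix.map_mul, Matrix.nonsing_inv_mul Y hdet]
    exact Matrix.map_one _ (map_zero _) (map_one _)
  have hYpint : ∀ i j, Yp i j ∈ intSub k L := fun i j => (intSub k L).pow_mem (h1 i j) p
  have hZpint : ∀ i j, Zp i j ∈ intSub k L := fun i j => (intSub k L).pow_mem (h2 i j) p
  -- the two matrices
  set M : Matrix G G L := Yp * Y⁻¹ with hM
  set N : Matrix G G L := Y * Zp with hN
  have hMN : M * N = 1 := by
    rw [hM, hN, Matrix.mul_assoc, ← Matrix.mul_assoc Y⁻¹, Matrix.nonsing_inv_mul Y hdet,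
      Matrix.one_mul, hYZ]
  have hNM : N * M = 1 := by
    rw [hM, hN, Matrix.mul_assoc, ← Matrix.mul_assoc Zp, hZY, Matrix.one_mul,
      Matrix.mul_nonsing_inv Y hdet]
  have hMY : M * Y = Yp := by
    rw [hM, Matrix.mul_assoc, Matrix.nonsing_inv_mul Y hdet, Matrix.mul_one]
  have hMint : ∀ i j, M i j ∈ intSub k L := fun i j => by
    rw [hM, Matrix.mul_apply]
    exact (intSub k L).sum_mem fun l _ => (intSub k L).mul_mem (hYpint i l) (h2 l j)
  have hNint : ∀ i j, N i j ∈ intSub k L := fun i j => by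
    rw [hN, Matrix.mul_apply]
    exact (intSub k L).sum_mem fun l _ => (intSub k L).mul_mem (h1 i l) (hZpint l j)
  have hMfix : ∀ σ : L ≃ₐ[RatFunc k] L, M.map σ = M := by
    intro σ
    obtain ⟨g, rfl⟩ := f.surjective σ
    have e1 : M.map (f g) * actM (g : G) Y = actM (g : G) Yp := by
      rw [← h3 g]
      have : (M * Y).map (f g) = M.map (f g) * Y.map (f g) :=
        Matrix.map_mul (f := ((f g : L ≃ₐ[RatFunc k] L) : L →+* L))
      rw [← this, hMY, hYp]
      ext i j
      have hij := congrFun (congrFun (h3 g) i) j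
      rw [Matrix.map_apply] at hij
      simp only [Matrix.map_apply, actM_apply, frobenius_def, map_pow]
      rw [hij, actM_apply]
    have e2 : M * actM (g : G) Y = actM (g : G) Yp := by
      rw [← actM_mul, hMY]
    have hu : IsUnit (actM (g : G) Y) := by
      rw [← h3 g]
      exact hY.map ((((f g : L ≃ₐ[RatFunc k] L) : L →+* L)).mapMatrix (m := G))
    exact hu.mul_right_cancel (e1.trans e2.symm)
  have hNfix : ∀ σ : L ≃ₐ[RatFunc k] L, N.map σ = N := by
    intro σ
    have e1 : M.map σ * N.map σ = 1 := by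
      have : (M * N).map σ = M.map σ * N.map σ :=
        Matrix.map_mul (f := ((σ : L ≃ₐ[RatFunc k] L) : L →+* L))
      rw [← this, hMN]
      exact Matrix.map_one _ (map_zero _) (map_one _)
    rw [hMfix σ] at e1
    calc N.map σ = (N * M) * N.map σ := by rw [hNM, Matrix.one_mul]
      _ = N := by rw [Matrix.mul_assoc, e1, Matrix.mul_one]
  obtain ⟨Ψ, hΨ⟩ := fmOfY_matrix M hMint hMfix
  obtain ⟨Ψ', hΨ'⟩ := fmOfY_matrix N hNint hNfix
  refine ⟨hY, ⟨Ψ, ?_, ?_⟩, ?_, ?_⟩
  · have hmul : Ψ * Ψ' = 1 := by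
      have : (Ψ * Ψ').map (pk k L) = (1 : Matrix G G (Polynomial k)).map (pk k L) := by
        rw [Matrix.map_mul, hΨ, hΨ', hMN, Matrix.map_one _ (map_zero _) (map_one _)]
      exact Matrix.map_injective hinj this
    exact (Matrix.isUnit_iff_isUnit_det _).2 (Matrix.isUnit_det_of_right_inverse hmul)
  · rw [hΨ, hMY]
    rfl
  · intro g hg F hF
    have e := ev_map (((f ⟨g, hg⟩ : L ≃ₐ[RatFunc k] L) : L →+* L)) (pk k L) Y F
    rw [hF, map_zero, fmOfY_comp_pk] at e
    rw [e]
    congr 1
    exact congrArg (fun Z => ev (pk k L) Z) (h3 ⟨g, hg⟩).symm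
  · intro F hF
    obtain ⟨q, hq⟩ := fmOfY_fixed (fmOfY_ev_mem Y h1 F) (by
      intro σ
      obtain ⟨g, rfl⟩ := f.surjective σ
      have e := ev_map (((f g : L ≃ₐ[RatFunc k] L) : L →+* L)) (pk k L) Y F
      rw [fmOfY_comp_pk] at e
      refine Eq.trans e ?_
      rw [← hF g g.2]
      exact congrArg (fun Z => ev (pk k L) Z F) (h3 g))
    exact ⟨q, hq.symm⟩

end Pool.Agent.Helper54.FP
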