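import Pool.Agent.Helper24.FP.SplitField
import Pool.Agent.Helper88.FP.Indep
import Pool.Agent.Helper75.FP.LocalGlobal
import Pool.Agent.Helper37.FP.Umat
import Pool.Agent.Helper55.FP.Left
import Pool.Agent.Helper35.FP.FMofY

/-!
# FP-30: the cover of the affine line defined by a patched matrix
-/

set_option autoImplicit false
set_option linter.unusedSectionVars false
open scoped Pointwise
open Pool.Agent.Helper54.PW

namespace Pool.Agent.Helper54.FP

section CoverOfPCov
variable {p : ℕ} [Fact p.Prime] {G : Type} [Group G] [Fintype G] [DecidableEq G]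

/-- the field generated by the entries, with the action of the group, and every element is a
fraction -/
theorem cop_field {R Ω : Type} [CommRing R] [Field Ω] {φ : R →+* Ω} {Y : Matrix G G Ω}
    (h : FM p φ Y ⊤) :
    ∃ (L : Type) (_ : Field L) (φL : R →+* L) (YL : Matrix G G L) (incl : L →+* Ω),
      incl.comp φL = φ ∧ YL.map incl = Y ∧
      (∀ g : G, ∃ δ : L →+* L, δ.comp φL = φL ∧ YL.map δ = actM g YL) ∧
      ∀ x : L, ∃ F1 F2 : MvPolynomial (G × G) R, ev φL YL F2 ≠ 0 ∧
        x * ev φL YL F2 = ev φL YL F1 := by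
  set B := (ev φ Y).range with hB
  set e : MvPolynomial (G × G) R →+* B := (ev φ Y).rangeRestrict with he
  have hes : Function.Surjective e := (ev φ Y).rangeRestrict_surjective
  have hev : ∀ F, ((e F : B) : Ω) = ev φ Y F := fun F => rfl
  let L := FractionRing B
  have hinj : Function.Injective B.subtype := Subtype.val_injective
  let incl : L →+* Ω := IsFractionRing.lift (A := B) (K := L) hinj
  have hincl : ∀ b : B, incl (algebraMap B L b) = (b : Ω) := fun b =>
    IsFractionRing.lift_algebraMap hinj b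
  have hevL : ∀ F : MvPolynomial (G × G) R, ev ((algebraMap B L).comp (e.comp MvPolynomial.C))
      (fun i j => algebraMap B L (e (MvPolynomial.X (i, j)))) F = algebraMap B L (e F) := by
    intro F
    induction F using MvPolynomial.induction_on with
    | C a => rw [ev_C]; rfl
    | add p q hp hq => rw [map_add, map_add, map_add, hp, hq]
    | mul_X p ij hp =>
      obtain ⟨i, j⟩ := ij
      rw [map_mul, map_mul, map_mul, hp, ev_X]
  refine ⟨L, inferInstance, (algebraMap B L).comp (e.comp MvPolynomial.C),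
    fun i j => algebraMap B L (e (MvPolynomial.X (i, j))), incl, ?_, ?_, ?_, ?_⟩
  · ext r
    simp only [RingHom.comp_apply]
    rw [hincl, hev, ev_C]
  · ext i j
    simp only [Matrix.map_apply]
    rw [hincl, hev, ev_X]
  · intro g
    obtain ⟨δ, hδ, hδ2⟩ := sf_exists_delta h g (Subgroup.mem_top g)
    refine ⟨IsFractionRing.map (A := B) (B := B) (K := L) (L := L) hδ, ?_, ?_⟩
    · ext r
      simp only [RingHom.comp_apply]
      rw [IsFractionRing.map, IsLocalization.map_eq]
      congr 1
      apply Subtype.ext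
      have := hδ2 (MvPolynomial.C r)
      rw [ev_C] at this
      refine this.trans ?_
      rw [hev, ev_C]
    · ext i j
      simp only [Matrix.map_apply, actM_apply]
      rw [IsFractionRing.map, IsLocalization.map_eq]
      congr 1
      apply Subtype.ext
      have := hδ2 (MvPolynomial.X (i, j))
      rw [ev_X, actM_apply] at this
      refine this.trans ?_
      rw [hev, ev_X]
  · intro x
    obtain ⟨a, b, hb, rfl⟩ := IsFractionRing.div_surjective (A := B) x
    obtain ⟨F1, rfl⟩ := hes a
    obtain ⟨F2, rfl⟩ := hes b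
    have h2 : algebraMap B L (e F2) ≠ 0 :=
      (map_ne_zero_iff _ (IsFractionRing.injective B L)).2 (nonZeroDivisors.ne_zero hb)
    refine ⟨F1, F2, ?_, ?_⟩
    · rw [hevL]; exact h2
    · rw [hevL, hevL, div_mul_cancel₀ _ h2]

omit [Fintype G] in
/-- the entry `(1,1)` detects the group element -/
theorem cop_one_entry {Ω : Type} [CommRing Ω] (g : G) :
    actM g (1 : Matrix G G Ω) 1 1 = if g = 1 then 1 else 0 := by
  rw [actM_apply, mul_one, Matrix.one_apply]
  simp only [eq_comm]

/-- the Galois extension of `k(X)` with group `G` -/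
theorem cop_galois {k Ω : Type} [Field k] [CharP k p] [Field Ω] {φ : Polynomial k →+* Ω}
    (hφ : Function.Injective φ) {Y : Matrix G G Ω} (h : FM p φ Y ⊤) :
    ∃ (L : Type) (_ : Field L) (_ : Algebra (RatFunc k) L) (j : L →+* Ω) (YL : Matrix G G L)
      (Θ : G ≃* (L ≃ₐ[RatFunc k] L)), FiniteDimensional (RatFunc k) L ∧ IsGalois (RatFunc k) L ∧
      (∀ q : Polynomial k, j (pk k L q) = φ q) ∧ YL.map j = Y ∧
      (∀ g : G, YL.map (Θ g) = actM g YL) ∧
      (∀ x : L, ∃ (d : Polynomial k) (F : MvPolynomial (G × G) (Polynomial k)), d ≠ 0 ∧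
        pk k L d * x = ev (pk k L) YL F) ∧
      FM p (pk k L) YL ⊤ := by
  classical
  obtain ⟨L, _, φL, YL, incl, h1, h2, h3, h4⟩ := cop_field h
  have hφL : Function.Injective φL := by
    intro a b hab
    apply hφ
    rw [← h1, RingHom.comp_apply, RingHom.comp_apply, hab]
  let κ : RatFunc k →+* L := IsFractionRing.lift hφL
  have hκ : ∀ q, κ (algebraMap (Polynomial k) (RatFunc k) q) = φL q := fun q =>
    IsFractionRing.lift_algebraMap hφL q
  let _ : Algebra (RatFunc k) L := κ.toAlgebra
  have hpk : pk k L = φL := RingHom.ext hκ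
  choose δ hδ1 hδ2 using h3
  -- values of polynomials
  have hevj : ∀ F, incl (ev φL YL F) = ev φ Y F := by
    intro F
    rw [ev_map, h1, h2]
  have hevδ : ∀ g F, δ g (ev φL YL F) = ev φL YL (sh g F) := by
    intro g F
    rw [ev_map, hδ1, hδ2, ev_sh]
  -- two homomorphisms which agree on the generators
  have hext : ∀ f f' : L →+* L, f.comp φL = f'.comp φL → YL.map f = YL.map f' → f = f' := by
    intro f f' hf hf'
    refine RingHom.ext fun x => ?_
    obtain ⟨F1, F2, hF2, hx⟩ := h4 x
    have e : ∀ F, f (ev φL YL F) = f' (ev φL YL F) := by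
      intro F
      rw [ev_map, ev_map, hf, hf']
    have e1 := congrArg f hx
    have e2 := congrArg f' hx
    rw [map_mul, e F1] at e1
    rw [map_mul, ← e1, ← e F2] at e2
    exact (mul_right_cancel₀ ((_root_.map_ne_zero f).2 hF2) e2).symm
  have hδmul : ∀ g g', δ (g * g') = (δ g).comp (δ g') := by
    intro g g'
    apply hext
    · rw [hδ1, RingHom.comp_assoc, hδ1, hδ1]
    · have : YL.map ((δ g).comp (δ g')) = (YL.map (δ g')).map (δ g) := by
        ext i j; simp
      rw [this, hδ2, hδ2, actM_map, hδ2, actM_actM]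
  have hδone : δ 1 = RingHom.id L := by
    apply hext
    · rw [hδ1, RingHom.id_comp]
    · rw [hδ2, actM_one]
      ext i j; simp
  have hδκ : ∀ g (r : RatFunc k), δ g (algebraMap (RatFunc k) L r) = algebraMap (RatFunc k) L r := by
    intro g r
    have : (δ g).comp κ = κ := by
      apply IsLocalization.ringHom_ext (nonZeroDivisors (Polynomial k))
      refine RingHom.ext fun q => ?_
      change δ g (κ (algebraMap _ _ q)) = κ (algebraMap _ _ q)
      rw [hκ]
      exact DFunLike.congr_fun (hδ1 g) q
    exact DFunLike.congr_fun this r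
  let θ₀ : G →* (L →ₐ[RatFunc k] L) :=
    { toFun := fun g => { δ g with commutes' := hδκ g }
      map_one' := by
        apply AlgHom.ext
        intro x
        exact DFunLike.congr_fun hδone x
      map_mul' := by
        intro g g'
        apply AlgHom.ext
        intro x
        exact DFunLike.congr_fun (hδmul g g') x }
  let θ : G →* (L ≃ₐ[RatFunc k] L) :=
    (AlgEquiv.algHomUnitsEquiv (RatFunc k) L).toMonoidHom.comp θ₀.toHomUnits
  have hθ : ∀ g x, θ g x = δ g x := fun g x => rfl
  -- the Frobenius module over `L`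
  have hYu : IsUnit YL := by
    rw [Matrix.isUnit_iff_isUnit_det, isUnit_iff_ne_zero]
    intro h0
    have hY := h.unit
    rw [Matrix.isUnit_iff_isUnit_det, isUnit_iff_ne_zero, ← h2] at hY
    apply hY
    have := RingHom.map_det incl YL
    rw [h0, map_zero] at this
    exact this.symm
  have hfix : ∀ F : MvPolynomial (G × G) (Polynomial k),
      (∀ g : G, ev φL (actM g YL) F = ev φL YL F) → ∃ r, ev φL YL F = φL r := by
    intro F hF
    obtain ⟨r, hr⟩ := h.fix F (by
      intro g _
      rw [← ev_sh, ← hevj, ← hevj, ev_sh, hF g])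
    refine ⟨r, incl.injective ?_⟩
    rw [hevj, hr, ← h1]
    rfl
  have hFM : FM p (pk k L) YL ⊤ := by
    rw [hpk]
    refine ⟨hYu, ?_, ?_, ?_⟩
    · obtain ⟨Ψ, hΨ, hΨ2⟩ := h.frob
      refine ⟨Ψ, hΨ, ?_⟩
      apply Matrix.map_injective incl.injective
      have e1 : (Ψ.map φL * YL).map incl = (Ψ.map φL).map incl * YL.map incl :=
        Matrix.map_mul
      have e2 : (Ψ.map φL).map incl = Ψ.map φ := by
        rw [← h1]; ext i j; simp
      have e3 : (YL.map (fun y => y ^ p)).map incl = (YL.map incl).map (fun y => y ^ p) := by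
        ext i j; simp
      change (YL.map (fun y => y ^ p)).map incl = (Ψ.map φL * YL).map incl
      rw [e1, e2, e3, h2, hΨ2]
    · intro g _ F hF
      rw [← ev_sh, ← hevδ, hF, map_zero]
    · intro F hF
      exact hfix F (fun g => hF g (Subgroup.mem_top g))
  -- denominators
  have hden : ∀ x : L, ∃ (d : Polynomial k) (F : MvPolynomial (G × G) (Polynomial k)), d ≠ 0 ∧
      φL d * x = ev φL YL F := by
    intro x
    obtain ⟨F1, F2, hF2, hx⟩ := h4 x
    set N : MvPolynomial (G × G) (Polynomial k) := ∏ g : G, sh g F2 with hN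
    have hNe : ev φL YL N = ∏ g : G, δ g (ev φL YL F2) := by
      rw [hN, map_prod]
      exact Finset.prod_congr rfl fun g _ => (hevδ g F2).symm
    have hN0 : ev φL YL N ≠ 0 := by
      rw [hNe, Finset.prod_ne_zero_iff]
      intro g _
      exact (_root_.map_ne_zero (δ g)).2 hF2
    obtain ⟨d, hd⟩ := hfix N (by
      intro g
      rw [← ev_sh, ← hevδ, hNe, map_prod]
      refine Fintype.prod_equiv (Equiv.mulLeft g) _ _ fun g' => ?_
      rw [Equiv.coe_mulLeft, hδmul, RingHom.comp_apply])
    refine ⟨d, F1 * ∏ g ∈ Finset.univ.erase (1 : G), sh g F2, ?_, ?_⟩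
    · rintro rfl
      rw [map_zero] at hd
      exact hN0 hd
    · have e1 : N = sh 1 F2 * ∏ g ∈ Finset.univ.erase (1 : G), sh g F2 :=
        (Finset.mul_prod_erase _ _ (Finset.mem_univ _)).symm
      have e2 : ev φL YL (sh 1 F2) = ev φL YL F2 := by rw [ev_sh, actM_one]
      rw [← hd, e1, map_mul, map_mul, e2, ← hx]
      ring
  -- fixed elements
  have hfixed : ∀ x : L, (∀ g, δ g x = x) → x ∈ (⊥ : IntermediateField (RatFunc k) L) := by
    intro x hx
    obtain ⟨d, F, hd, hF⟩ := hden x
    obtain ⟨r, hr⟩ := hfix F (by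
      intro g
      rw [← ev_sh, ← hevδ, ← hF, map_mul, hx g]
      congr 1
      exact DFunLike.congr_fun (hδ1 g) d)
    rw [IntermediateField.mem_bot]
    refine ⟨algebraMap _ _ r / algebraMap _ _ d, ?_⟩
    have hd' : φL d ≠ 0 := (map_ne_zero_iff _ hφL).2 hd
    change κ (algebraMap _ _ r / algebraMap _ _ d) = x
    rw [map_div₀, hκ, hκ, ← hr, ← hF, mul_div_cancel_left₀ _ hd']
  -- finite dimension
  have hint : ∀ i j, IsIntegral (RatFunc k) (YL i j) := by
    intro i j
    obtain ⟨Ψ, hΨ, hΨ2⟩ := hFM.frob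
    have := integral_of_frob (pk k L) YL Ψ hΨ2 (MvPolynomial.X (i, j))
    rw [ev_X] at this
    obtain ⟨P, hP, hP2⟩ := this
    refine ⟨P.map (algebraMap (Polynomial k) (RatFunc k)), hP.map _, ?_⟩
    rw [Polynomial.eval₂_map]
    exact hP2
  set S : Set L := Set.range (fun ij : G × G => YL ij.1 ij.2) with hS
  have hadj : IntermediateField.adjoin (RatFunc k) S = ⊤ := by
    rw [eq_top_iff]
    intro x _
    obtain ⟨d, F, hd, hF⟩ := hden x
    have hd' : φL d ≠ 0 := (map_ne_zero_iff _ hφL).2 hd
    have hx : x = (φL d)⁻¹ * ev φL YL F := by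
      rw [← hF, inv_mul_cancel_left₀ hd']
    have hmem : ∀ q, φL q ∈ IntermediateField.adjoin (RatFunc k) S := by
      intro q
      rw [← hκ]
      exact (IntermediateField.adjoin (RatFunc k) S).algebraMap_mem _
    rw [hx]
    refine mul_mem (inv_mem (hmem d)) ?_
    clear hF hx
    induction F using MvPolynomial.induction_on with
    | C a => rw [ev_C]; exact hmem a
    | add p q hp hq => rw [map_add]; exact add_mem hp hq
    | mul_X p ij hp =>
      obtain ⟨i, j⟩ := ij
      rw [map_mul, ev_X]
      exact mul_mem hp (IntermediateField.subset_adjoin _ _ ⟨(i, j), rfl⟩)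
  have hfd : FiniteDimensional (RatFunc k) L := by
    have : Finite S := Set.finite_range _
    have hf := IntermediateField.finiteDimensional_adjoin (K := RatFunc k) (S := S) (by
      rintro _ ⟨ij, rfl⟩
      exact hint ij.1 ij.2)
    rw [hadj] at hf
    exact Module.Finite.equiv (IntermediateField.topEquiv (F := RatFunc k) (E := L)).toLinearEquiv
  have hbot : IntermediateField.fixedField θ.range = ⊥ := by
    rw [eq_bot_iff]
    intro x hx
    apply hfixed
    intro g
    have := hx ⟨θ g, ⟨g, rfl⟩⟩
    exact this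
  have hgal : IsGalois (RatFunc k) L := by
    apply IsGalois.of_fixedField_eq_bot
    rw [eq_bot_iff, ← hbot]
    intro x hx g
    exact hx ⟨g, Subgroup.mem_top _⟩
  have hsurj : Function.Surjective θ := by
    rw [← MonoidHom.range_eq_top, ← IntermediateField.fixingSubgroup_fixedField θ.range, hbot]
    exact IntermediateField.fixingSubgroup_bot
  have hinjθ : Function.Injective θ := by
    rw [injective_iff_map_eq_one]
    intro g hg
    have e1 : actM g YL = YL := by
      rw [← hδ2 g]
      ext i j
      have : θ g (YL i j) = YL i j := by rw [hg]; rfl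
      rw [hθ] at this
      simpa using this
    have e2 : YL * actM g (1 : Matrix G G L) = YL * 1 := by
      rw [← actM_mul, mul_one, e1]
    have e3 : actM g (1 : Matrix G G L) = 1 := hYu.mul_left_cancel e2
    have e4 := congrFun (congrFun e3 1) 1
    rw [cop_one_entry, Matrix.one_apply_eq] at e4
    by_contra hne
    rw [if_neg hne] at e4
    exact zero_ne_one e4
  refine ⟨L, inferInstance, inferInstance, incl, YL, MulEquiv.ofBijective θ ⟨hinjθ, hsurj⟩, hfd,
    hgal, ?_, h2, ?_, ?_, hFM⟩
  · intro q
    rw [hpk, ← h1]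
    rfl
  · intro g
    rw [← hδ2 g]
    rfl
  · rw [hpk]
    exact hden

/-- finite places: an automorphism which stabilises the place is trivial -/
theorem cop_finite {k L : Type} [Field k] [IsAlgClosed k] [CharP k p] [Field L]
    [Algebra (RatFunc k) L] [FiniteDimensional (RatFunc k) L] {YL : Matrix G G L}
    (hFM : FM p (pk k L) YL ⊤) (A : ValuationSubring L) (hA : A ≠ ⊤)
    (hk : ∀ c : k, algebraMap (RatFunc k) L (algebraMap k (RatFunc k) c) ∈ A) (hX : tX k L ∈ A)
    (σ : L ≃ₐ[RatFunc k] L) (hσ : σ • A = A) (g : G) (hg : YL.map σ = actM g YL) : g = 1 := by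
  let _ : Algebra k L := ((algebraMap (RatFunc k) L).comp (algebraMap k (RatFunc k))).toAlgebra
  have hst : IsScalarTower k (RatFunc k) L := IsScalarTower.of_algebraMap_eq fun _ => rfl
  have hF : FF k L := ff_of_algebraic k L
  have : CharP L p := charP_of_injective_ringHom
    (f := (pk k L).comp (Polynomial.C : k →+* Polynomial k)) (RingHom.injective _) p
  -- polynomials are in `A`
  have hq : ∀ q : Polynomial k, pk k L q ∈ A := by
    intro q
    induction q using Polynomial.induction_on with
    | C a => exact hk a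
    | add p q hp hq => rw [map_add]; exact A.add_mem _ _ hp hq
    | monomial n a ih =>
      rw [pow_succ, ← mul_assoc, map_mul]
      exact A.mul_mem _ _ ih hX
  obtain ⟨Ψ, hΨ, hΨ2⟩ := hFM.frob
  have hev : ∀ F, ev (pk k L) YL F ∈ A := by
    intro F
    let _ := (pk k L).toAlgebra
    exact Places1.mem_of_integral (R := Polynomial k) A hq (integral_of_frob (pk k L) YL Ψ hΨ2 F)
  obtain ⟨Z, hZ1, hZ2⟩ := fm_inv hFM
  set W : Matrix G G L := Z.map (ev (pk k L) YL) with hW
  have hWA : ∀ i j, W i j ∈ A := fun i j => hev _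
  have hYA : ∀ i j, YL i j ∈ A := by
    intro i j
    have := hev (MvPolynomial.X (i, j))
    rwa [ev_X] at this
  have hres : ∀ y ∈ A, A.valuation (σ y - y) < 1 := by
    intro y hy
    obtain ⟨c, hc⟩ := residue hF A ⟨hA, hk⟩ y hy
    have h1 : σ (y - algebraMap k L c) ∈ A.nonunits := by
      rw [← hσ, mem_nonunits_smul]
      have : σ⁻¹ (σ (y - algebraMap k L c)) = y - algebraMap k L c := σ.symm_apply_apply _
      rw [this]
      exact hc
    have h2 : σ (algebraMap k L c) = algebraMap k L c := σ.commutes _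
    rw [map_sub, h2] at h1
    rw [ValuationSubring.mem_nonunits_iff] at h1 hc
    have h3 : σ y - y = (σ y - algebraMap k L c) - (y - algebraMap k L c) := by ring
    rw [h3]
    exact Valuation.map_sub_lt _ h1 hc
  by_contra hne
  have h1 : (W * actM g YL) 1 1 = 0 := by
    rw [← actM_mul, hZ2, cop_one_entry, if_neg hne]
  have h2 : (W * YL) 1 1 = 1 := by
    rw [hZ2, Matrix.one_apply_eq]
  have h3 : ∑ l, W 1 l * (σ (YL l 1) - YL l 1) = -1 := by
    have e : ∑ l, W 1 l * (σ (YL l 1) - YL l 1) = (W * actM g YL) 1 1 - (W * YL) 1 1 := by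
      rw [Matrix.mul_apply, Matrix.mul_apply, ← Finset.sum_sub_distrib]
      refine Finset.sum_congr rfl fun l _ => ?_
      have := congrFun (congrFun hg l) 1
      rw [Matrix.map_apply] at this
      rw [this, mul_sub]
    rw [e, h1, h2, zero_sub]
  have h4 : A.valuation (∑ l, W 1 l * (σ (YL l 1) - YL l 1)) < 1 := by
    refine Valuation.map_sum_lt _ one_ne_zero fun l _ => ?_
    rw [map_mul, mul_comm]
    exact mul_lt_one_of_lt_of_le (hres _ (hYA l 1)) ((A.valuation_le_one_iff _).2 (hWA 1 l))
  rw [h3, Valuation.map_neg, map_one] at h4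
  exact lt_irrefl _ h4

/-- a valuation ring of `Ω` over `k[[x]]` -/
theorem cop_exists_val {k Ω : Type} [Field k] [Field Ω] (i : LaurentSeries k →+* Ω) :
    ∃ B : ValuationSubring Ω, ∀ f : LaurentSeries k, i f ∈ B ↔
      ∃ g : PowerSeries k, algebraMap (PowerSeries k) (LaurentSeries k) g = f := by
  obtain ⟨B, h, hloc⟩ := IsLocalRing.exists_factor_valuationRing
    (R := PowerSeries k) (i.comp (algebraMap (PowerSeries k) (LaurentSeries k)))
  refine ⟨B, fun f => ⟨fun hf => ?_, ?_⟩⟩
  · rcases ValuationRing.isInteger_or_isInteger (PowerSeries k) f with h1 | h1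
    · exact h1
    · obtain ⟨g', hg'⟩ := h1
      by_cases hf0 : f = 0
      · exact ⟨0, by rw [hf0, map_zero]⟩
      have hu : IsUnit (((i.comp (algebraMap (PowerSeries k) (LaurentSeries k))).codRestrict
          B.toSubring h) g') := by
        refine isUnit_iff_exists_inv.2 ⟨⟨i f, hf⟩, ?_⟩
        apply Subtype.coe_injective
        change i (algebraMap (PowerSeries k) (LaurentSeries k) g') * i f = 1
        rw [hg', ← map_mul, inv_mul_cancel₀ hf0, map_one]
      obtain ⟨g, hg⟩ := isUnit_iff_exists_inv.1 (hloc.1 _ hu)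
      refine ⟨g, ?_⟩
      have h2 : algebraMap (PowerSeries k) (LaurentSeries k) g' *
          algebraMap (PowerSeries k) (LaurentSeries k) g = 1 := by
        rw [← map_mul, hg, map_one]
      rw [hg'] at h2
      field_simp at h2
      exact h2
  · rintro ⟨g, rfl⟩
    exact h g

/-- a polynomial of degree less than `p` with `P(s + 1) = P(s)` is constant -/
theorem cop_const {E : Type} [Field E] [CharP E p] (P : Polynomial E) (hP : P.natDegree < p)
    (h : P.comp (Polynomial.X + 1) = P) : ∃ c, P = Polynomial.C c := by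
  classical
  refine ⟨P.eval 0, ?_⟩
  have hn : ∀ n : ℕ, P.eval (n : E) = P.eval 0 := by
    intro n
    induction n with
    | zero => simp
    | succ n ih =>
      rw [← ih]
      conv_rhs => rw [← h]
      simp
  rw [← sub_eq_zero]
  by_contra hne
  have hdeg : (P - Polynomial.C (P.eval 0)).natDegree < p := by
    rw [Polynomial.natDegree_sub_C]; exact hP
  have hinj : Set.InjOn (fun n : ℕ => (n : E)) (Finset.range p : Set ℕ) := by
    intro a ha b hb hab
    rw [Finset.coe_range, Set.mem_Iio] at ha hb
    exact CharP.natCast_injOn_Iio E p ha hb hab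
  have hsub : (Finset.range p).image (fun n : ℕ => (n : E)) ⊆
      (P - Polynomial.C (P.eval 0)).roots.toFinset := by
    intro x hx
    obtain ⟨n, -, rfl⟩ := Finset.mem_image.1 hx
    rw [Multiset.mem_toFinset, Polynomial.mem_roots hne, Polynomial.IsRoot.def,
      Polynomial.eval_sub, Polynomial.eval_C, hn, sub_self]
  have h1 := Finset.card_le_card hsub
  rw [Finset.card_image_of_injOn hinj, Finset.card_range] at h1
  have h2 := Multiset.toFinset_card_le (P - Polynomial.C (P.eval 0)).roots
  have h3 := Polynomial.card_roots' (P - Polynomial.C (P.eval 0))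
  omega

/-- the elements of the field as polynomials in `u` over `k((x))` -/
theorem cop_rep {k L Ω : Type} [Field k] [CharP k p] [Field L] [Algebra (RatFunc k) L] [Field Ω]
    (τ : G) (hτ : orderOf τ = p) (g : Polynomial k) (C : Matrix G G (LaurentSeries k))
    (i : LaurentSeries k →+* Ω) (u : Ω) (hu : u ^ p - u = i (px k g)) (j : L →+* Ω)
    (YL : Matrix G G L) (hj : ∀ q : Polynomial k, j (pk k L q) = (i.comp (px k)) q)
    (hY : YL.map j = C.map i * Umat p τ u) (σ : L ≃ₐ[RatFunc k] L)
    (hσ : YL.map σ = actM τ YL)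
    (hden : ∀ x : L, ∃ (d : Polynomial k) (F : MvPolynomial (G × G) (Polynomial k)), d ≠ 0 ∧
        pk k L d * x = ev (pk k L) YL F) (y : L) :
    ∃ Q : Polynomial (LaurentSeries k), Q.natDegree < p ∧ j y = Q.eval₂ i u ∧
      j (σ y) = Q.eval₂ i (u + 1) := by
  have hp : p.Prime := Fact.out
  have hFL : CharP (LaurentSeries k) p :=
    charP_of_injective_ringHom (f := (HahnSeries.C : k →+* LaurentSeries k))
      (RingHom.injective _) p
  have hΩ : CharP Ω p := charP_of_injective_ringHom (RingHom.injective i) p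
  have hτp : τ ^ p = 1 := by rw [← hτ]; exact pow_orderOf_eq_one τ
  obtain ⟨d, F, hd, hF⟩ := hden y
  set R0 : Matrix G G (Polynomial (LaurentSeries k)) :=
    C.map Polynomial.C * Umat p τ (Polynomial.X : Polynomial (LaurentSeries k)) with hR0
  have hR : ∀ w : Ω, R0.map (Polynomial.eval₂RingHom i w) = C.map i * Umat p τ w := by
    intro w
    rw [hR0, Matrix.map_mul, umat_map]
    congr 1
    · ext a b
      simp
    · simp
  set Q0 : Polynomial (LaurentSeries k) := ev ((Polynomial.C).comp (px k)) R0 F with hQ0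
  have hQ : ∀ w : Ω, Q0.eval₂ i w = ev (i.comp (px k)) (C.map i * Umat p τ w) F := by
    intro w
    have h1 := ev_map (Polynomial.eval₂RingHom i w) ((Polynomial.C).comp (px k)) R0 F
    rw [hR, ← RingHom.comp_assoc] at h1
    have h2 : (Polynomial.eval₂RingHom i w).comp Polynomial.C = i := by
      ext a; simp
    rw [h2] at h1
    exact h1
  have hd0 : px k d ≠ 0 := (map_ne_zero_iff _ (px_injective k)).2 hd
  have hid0 : i (px k d) ≠ 0 := (_root_.map_ne_zero i).2 hd0
  have hevj : ∀ (Y' : Matrix G G L) F, j (ev (pk k L) Y' F) = ev (i.comp (px k)) (Y'.map j) F := by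
    intro Y' F
    rw [ev_map]
    congr 2
    exact RingHom.ext hj
  set Q1 : Polynomial (LaurentSeries k) := Polynomial.C (px k d)⁻¹ * Q0 with hQ1
  have e1 : j y = Q1.eval₂ i u := by
    have h1 := congrArg j hF
    rw [map_mul, hj, hevj, hY, ← hQ] at h1
    rw [hQ1, Polynomial.eval₂_mul, Polynomial.eval₂_C, ← h1, map_inv₀, RingHom.comp_apply,
      inv_mul_cancel_left₀ hid0]
  have e2 : j (σ y) = Q1.eval₂ i (u + 1) := by
    have h0 : pk k L d * σ y = ev (pk k L) (actM τ YL) F := by
      have h1 := congrArg σ hF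
      have h2 := ev_map ((σ : L ≃ₐ[RatFunc k] L) : L →+* L) (pk k L) YL F
      rw [fmOfY_comp_pk] at h2
      rw [map_mul] at h1
      have h3 : σ (pk k L d) = pk k L d := DFunLike.congr_fun (fmOfY_comp_pk σ) d
      rw [h3] at h1
      rw [h1]
      refine Eq.trans h2 ?_
      exact congrArg (fun Z => ev (pk k L) Z F) hσ
    have h1 := congrArg j h0
    rw [map_mul, hj, hevj, actM_map, hY, actM_mul, actM_umat τ hτp, ← hQ] at h1
    rw [hQ1, Polynomial.eval₂_mul, Polynomial.eval₂_C, ← h1, map_inv₀, RingHom.comp_apply,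
      inv_mul_cancel_left₀ hid0]
  set m : Polynomial (LaurentSeries k) := Polynomial.X ^ p - (Polynomial.X + Polynomial.C (px k g))
    with hm
  have hdegm : (Polynomial.X + Polynomial.C (px k g) : Polynomial (LaurentSeries k)).degree <
      (p : WithBot ℕ) := by
    rw [Polynomial.degree_X_add_C]
    exact_mod_cast hp.one_lt
  have hmm : m.Monic := Polynomial.monic_X_pow_sub hdegm
  have hmd : m.natDegree = p := by
    rw [hm, Polynomial.natDegree_sub_eq_left_of_natDegree_lt]
    · exact Polynomial.natDegree_X_pow p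
    · rw [Polynomial.natDegree_X_pow, Polynomial.natDegree_X_add_C]
      exact hp.one_lt
  have hm1 : ∀ w : Ω, w ^ p - w = i (px k g) → m.eval₂ i w = 0 := by
    intro w hw
    rw [hm, Polynomial.eval₂_sub, Polynomial.eval₂_pow, Polynomial.eval₂_add, Polynomial.eval₂_X,
      Polynomial.eval₂_C, ← hw]
    ring
  have hu1 : (u + 1) ^ p - (u + 1) = i (px k g) := by
    rw [add_pow_char, one_pow, ← hu]
    ring
  refine ⟨Q1 %ₘ m, ?_, ?_, ?_⟩
  · have h1 := Polynomial.natDegree_modByMonic_lt Q1 hmm (by
      intro h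
      rw [h, Polynomial.natDegree_one] at hmd
      exact hp.ne_zero hmd.symm)
    rwa [hmd] at h1
  · rw [Polynomial.eval₂_modByMonic_eq_self_of_root (hm1 u hu), e1]
  · rw [Polynomial.eval₂_modByMonic_eq_self_of_root (hm1 _ hu1), e2]

theorem realAct_of_pcov {k : Type} [Field k] [IsAlgClosed k] [CharP k p] (τ : G)
    (hτ : orderOf τ = p) (h : PCov p k τ ⊤) : RealAct k (Subgroup.zpowers τ) := by
  obtain ⟨g, C, Ω, _, i, u, hg1, hg2, hC, hu, hFM0⟩ := h
  have hp : p.Prime := Fact.out
  have hφ : Function.Injective (i.comp (px k)) := i.injective.comp (px_injective k)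
  obtain ⟨L, _, _, j, YL, Θ, hfd, hgal, hj, hYL, hΘ, hden, hFM⟩ := cop_galois hφ hFM0
  refine ⟨L, inferInstance, inferInstance, hfd, hgal, Θ.symm.toMonoidHom, Θ.symm.surjective, ?_, ?_⟩
  · intro A hA hk hX σ hσ
    refine cop_finite hFM A hA hk hX σ hσ _ ?_
    have := hΘ (Θ.symm σ)
    rw [Θ.apply_symm_apply] at this
    exact this
  obtain ⟨B, hB⟩ := cop_exists_val i
  have hFL : CharP (LaurentSeries k) p :=
    charP_of_injective_ringHom (f := (HahnSeries.C : k →+* LaurentSeries k))
      (RingHom.injective _) p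
  have hjr : ∀ r : RatFunc k, j (algebraMap (RatFunc k) L r) = i (rx k r) := by
    intro r
    have : j.comp (algebraMap (RatFunc k) L) = i.comp (rx k) := by
      apply IsLocalization.ringHom_ext (nonZeroDivisors (Polynomial k))
      refine RingHom.ext fun q => ?_
      have h1 := hj q
      rw [RingHom.comp_apply, ← LocalGlobalAux.lg_rx_poly] at h1
      exact h1
    exact DFunLike.congr_fun this r
  have hXB : j (tX k L) ∉ B := by
    rw [tX, hjr, LocalGlobalAux.lg_rx_X]
    exact LocalGlobalAux.lg_single_notMem i B hB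
  have hXA : tX k L ∉ B.comap j := fun h => hXB (ValuationSubring.mem_comap.1 h)
  refine ⟨B.comap j, ?_, ?_, hXA, ?_⟩
  · intro htop
    apply hXA
    rw [htop]
    exact ValuationSubring.mem_top _
  · intro c
    rw [ValuationSubring.mem_comap]
    have h1 : algebraMap (RatFunc k) L (algebraMap k (RatFunc k) c) = algebraMap (RatFunc k) L
        (algebraMap (Polynomial k) (RatFunc k) (Polynomial.C c)) := rfl
    rw [h1, hjr, LocalGlobalAux.lg_rx_C, hB]
    exact ⟨PowerSeries.C c, by rw [LaurentSeries.coe_algebraMap, HahnSeries.ofPowerSeries_C]⟩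
  have hind := indep_as i i.injective (RingHom.id _) Function.injective_id (px k g) g rfl hg1 hg2 u hu
  have hrep := cop_rep τ hτ g C i u hu j YL hj hYL (Θ τ) (hΘ τ) hden
  -- the elements fixed by `τ` are the Laurent series
  have hkey : ∀ y : L, j y ∈ Set.range i ↔ Θ τ y = y := by
    intro y
    obtain ⟨Q, hQ1, hQ2, hQ3⟩ := hrep y
    constructor
    · rintro ⟨f, hf⟩
      have h1 : Q - Polynomial.C f = 0 := by
        apply hind
        · rw [Polynomial.natDegree_sub_C]; exact hQ1
        · rw [Polynomial.eval₂_sub, Polynomial.eval₂_C, ← hQ2, hf, sub_self]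
      have h2 : Q = Polynomial.C f := sub_eq_zero.1 h1
      apply j.injective
      rw [hQ3, h2, Polynomial.eval₂_C, hf]
    · intro hy
      rw [hy, hQ2] at hQ3
      have h1 : Q.comp (Polynomial.X + 1) - Q = 0 := by
        apply hind
        · refine lt_of_le_of_lt (Polynomial.natDegree_sub_le _ _) ?_
          rw [Polynomial.natDegree_comp, ← Polynomial.C_1, Polynomial.natDegree_X_add_C, mul_one,
            max_self]
          exact hQ1
        · rw [Polynomial.eval₂_sub, Polynomial.eval₂_comp, Polynomial.eval₂_add,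
            Polynomial.eval₂_X, Polynomial.eval₂_one, ← hQ3, sub_self]
      obtain ⟨c, hc⟩ := cop_const Q hQ1 (sub_eq_zero.1 h1)
      exact ⟨c, by rw [hQ2, hc, Polynomial.eval₂_C]⟩
  have hD : ∀ σ : L ≃ₐ[RatFunc k] L, σ • B.comap j = B.comap j ↔
      σ ∈ Subgroup.zpowers (Θ τ) := by
    intro σ
    rw [local_global i j hjr B hB σ]
    constructor
    · intro hσ
      rw [← IntermediateField.fixingSubgroup_fixedField (Subgroup.zpowers (Θ τ)),
        IntermediateField.mem_fixingSubgroup_iff]
      intro y hy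
      apply hσ
      rw [hkey]
      exact hy ⟨Θ τ, Subgroup.mem_zpowers _⟩
    · intro hσ y hy
      rw [hkey] at hy
      have h1 : Θ τ ∈ MulAction.stabilizer (L ≃ₐ[RatFunc k] L) y := hy
      have h2 : Subgroup.zpowers (Θ τ) ≤ MulAction.stabilizer (L ≃ₐ[RatFunc k] L) y :=
        Subgroup.zpowers_le.2 h1
      exact h2 hσ
  intro g'
  constructor
  · intro hg'
    refine ⟨Θ g', ?_, Θ.symm_apply_apply g'⟩
    rw [hD]
    obtain ⟨n, rfl⟩ := Subgroup.mem_zpowers_iff.1 hg'
    exact Subgroup.mem_zpowers_iff.2 ⟨n, (map_zpow Θ τ n).symm⟩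
  · rintro ⟨σ, hσ, rfl⟩
    rw [hD] at hσ
    obtain ⟨n, rfl⟩ := Subgroup.mem_zpowers_iff.1 hσ
    refine Subgroup.mem_zpowers_iff.2 ⟨n, ?_⟩
    change τ ^ n = Θ.symm ((Θ τ) ^ n)
    rw [map_zpow, Θ.symm_apply_apply]

end CoverOfPCov

end Pool.Agent.Helper54.FP
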